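import Pool.Agent.W57.SW.Base

set_option autoImplicit false

/-! Many smooth numbers: a slightly stronger form of `Pool.Agent.W57.SW.smooth_count`, from which the proof is
adapted. -/

namespace Pool.Agent.TH55.SO

open Finset Real Pool.Agent.W57.SW

/-- at least `√D exp (log D / (4 log log D))` numbers `≤ D` have all prime factors `≤ 2 (log D)^2` -/
lemma smooth_count2 : ∃ D0 : ℕ, ∀ D : ℕ, D0 ≤ D → ∃ S : Finset ℕ,
    (∀ s ∈ S, 1 ≤ s ∧ s ≤ D ∧ ∀ p : ℕ, p.Prime → p ∣ s → (p : ℝ) ≤ 2 * (log D) ^ 2) ∧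
      (D : ℝ) * exp (log D / (2 * log (log D))) ≤ (S.card : ℝ) ^ 2 := by
  -- eventual conditions in `t = log D`
  have hev1 : ∀ᶠ t : ℝ in Filter.atTop, 160 ≤ t := Filter.eventually_ge_atTop _
  have hev2 : ∀ᶠ t : ℝ in Filter.atTop, (1 + 2 * log t) ^ 2 + 4 * (1 + 2 * log t) < t := by
    have h1 : ∀ᶠ t : ℝ in Filter.atTop, ‖log t ^ 2‖ ≤ 1 / 24 * ‖id t‖ :=
      (isLittleO_pow_log_id_atTop (n := 2)).def (by norm_num)
    have h2 : ∀ᶠ t : ℝ in Filter.atTop, 1 ≤ log t :=
      tendsto_log_atTop.eventually (Filter.eventually_ge_atTop 1)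
    filter_upwards [h1, h2, Filter.eventually_gt_atTop 0] with t a1 a2 a3
    rw [norm_of_nonneg (by positivity), id, norm_of_nonneg a3.le] at a1
    nlinarith
  have hev3 : ∀ᶠ t : ℝ in Filter.atTop, 2 * log t * (1 + 2 * log t) * (2 * log t + 5) ≤ t := by
    have h1 : ∀ᶠ t : ℝ in Filter.atTop, ‖log t ^ 3‖ ≤ 1 / 42 * ‖id t‖ :=
      (isLittleO_pow_log_id_atTop (n := 3)).def (by norm_num)
    have h2 : ∀ᶠ t : ℝ in Filter.atTop, 1 ≤ log t :=
      tendsto_log_atTop.eventually (Filter.eventually_ge_atTop 1)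
    filter_upwards [h1, h2, Filter.eventually_gt_atTop 0] with t a1 a2 a3
    rw [norm_of_nonneg (by positivity), id, norm_of_nonneg a3.le] at a1
    have e1 : log t ≤ log t ^ 3 := by nlinarith [sq_nonneg (log t)]
    have e2 : log t ^ 2 ≤ log t ^ 3 := by nlinarith [sq_nonneg (log t)]
    nlinarith
  have hev4 : ∀ᶠ t : ℝ in Filter.atTop, 12.5 ≤ log t :=
    tendsto_log_atTop.eventually (Filter.eventually_ge_atTop _)
  obtain ⟨t0, ht0⟩ := Filter.eventually_atTop.mp (hev1.and (hev2.and (hev3.and hev4)))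
  refine ⟨⌈exp t0⌉₊, fun D hD => ?_⟩
  have hD1 : exp t0 ≤ D := Nat.ceil_le.mp hD
  have hD0 : (0 : ℝ) < D := (exp_pos _).trans_le hD1
  obtain ⟨t, ht⟩ : ∃ t : ℝ, t = log D := ⟨_, rfl⟩
  have htt0 : t0 ≤ t := by rw [ht, le_log_iff_exp_le hD0]; exact hD1
  obtain ⟨h160, h2, hcub, hL⟩ := ht0 t htt0
  have htpos : 0 < t := by linarith
  obtain ⟨y, hy⟩ : ∃ y : ℕ, y = ⌊2 * t ^ 2⌋₊ := ⟨_, rfl⟩
  have hyle : (y : ℝ) ≤ 2 * t ^ 2 := by rw [hy]; exact Nat.floor_le (by positivity)
  have hylt : 2 * t ^ 2 < y + 1 := by rw [hy]; exact Nat.lt_floor_add_one _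
  have hy100 : (100 : ℝ) ≤ y := by nlinarith
  have hy2 : 2 ≤ y := by
    have : (2 : ℝ) ≤ y := by linarith
    exact_mod_cast this
  have hy0 : (0 : ℝ) < y := by linarith
  obtain ⟨Y, hY⟩ : ∃ Y : ℝ, Y = log y := ⟨_, rfl⟩
  have hY1 : 1 ≤ Y := by
    rw [hY, le_log_iff_exp_le hy0]; linarith [exp_one_lt_d9]
  have hYle : Y ≤ 1 + 2 * log t := by
    have h3 := log_le_log hy0 hyle
    rw [log_mul (by norm_num) (by positivity), log_pow] at h3
    push_cast at h3
    rw [hY]
    linarith [log_two_lt_d9]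
  obtain ⟨u, hu⟩ : ∃ u : ℕ, u = Nat.log y D := ⟨_, rfl⟩
  have hDne : D ≠ 0 := by
    intro h; rw [h] at hD0; simp at hD0
  have huD : y ^ u ≤ D := by rw [hu]; exact Nat.pow_log_le_self y hDne
  have huD' : D < y ^ (u + 1) := by rw [hu]; exact Nat.lt_pow_succ_log_self (by omega) D
  have hut : u * Y ≤ t := by
    have h3 : ((y ^ u : ℕ) : ℝ) ≤ D := by exact_mod_cast huD
    push_cast at h3
    have h4 := log_le_log (by positivity) h3
    rw [log_pow] at h4
    rw [hY, ht]; exact h4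
  have hut' : t < (u + 1) * Y := by
    have h3 : (D : ℝ) < ((y ^ (u + 1) : ℕ) : ℝ) := by exact_mod_cast huD'
    push_cast at h3
    have h4 := log_lt_log hD0 h3
    rw [log_pow] at h4
    push_cast at h4
    rw [hY, ht]; exact h4
  have hYt : (Y ^ 2 + 4 * Y) < t := by
    have : Y ^ 2 + 4 * Y ≤ (1 + 2 * log t) ^ 2 + 4 * (1 + 2 * log t) := by
      have := pow_le_pow_left₀ (by linarith) hYle 2
      linarith
    linarith
  have hu3 : (3 : ℝ) ≤ u := by
    by_contra h
    push Not at h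
    have : (u + 1) * Y ≤ 4 * Y := by nlinarith
    nlinarith
  have hu1 : 1 ≤ u := by
    have : (1 : ℝ) ≤ u := by linarith
    exact_mod_cast this
  have hu0 : (0 : ℝ) < u := by linarith
  -- number of primes
  obtain ⟨N, hN⟩ : ∃ N : ℕ, N = Nat.primeCounting y := ⟨_, rfl⟩
  have hNlow : (y : ℝ) * log 2 - log (y + 1) ≤ N * Y := by
    rw [hN, hY]; exact primeCounting_low
  have hlogy1 : log ((y : ℝ) + 1) ≤ 4 * t := by
    have h3 : (y : ℝ) + 1 ≤ (1 + 2 * t) ^ 2 := by nlinarith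
    have h4 := log_le_log (by positivity) h3
    rw [log_pow] at h4
    have h5 := log_le_sub_one_of_pos (by positivity : 0 < 1 + 2 * t)
    push_cast at h4
    linarith
  have hNY : 1.346 * t ^ 2 ≤ (N + 1 - u) * Y := by
    have h3 : 0.693 * (2 * t ^ 2 - 1) ≤ y * log 2 := by
      have h4 : (0.693 : ℝ) ≤ log 2 := by linarith [log_two_gt_d9]
      have h5 : 2 * t ^ 2 - 1 ≤ y := by linarith
      have h6 : (0 : ℝ) ≤ 2 * t ^ 2 - 1 := by nlinarith
      calc 0.693 * (2 * t ^ 2 - 1) ≤ 0.693 * y := mul_le_mul_of_nonneg_left h5 (by norm_num)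
        _ ≤ log 2 * y := mul_le_mul_of_nonneg_right h4 hy0.le
        _ = y * log 2 := mul_comm _ _
    nlinarith
  have hsq : √(y : ℝ) * t ≤ 1.41422 * t ^ 2 := by
    have h3 : √(y : ℝ) ≤ 1.41422 * t := by
      rw [sqrt_le_iff]
      constructor
      · positivity
      · nlinarith
    calc √(y : ℝ) * t ≤ 1.41422 * t * t := mul_le_mul_of_nonneg_right h3 htpos.le
      _ = _ := by ring
  have hsqpos : 0 < √(y : ℝ) := sqrt_pos.mpr hy0
  have hratio : 0.951 * √(y : ℝ) * u ≤ N + 1 - u := by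
    have h3 : 0.951 * √(y : ℝ) * u * Y ≤ (N + 1 - u) * Y := by
      have h4 : 0.951 * √(y : ℝ) * (u * Y) ≤ 0.951 * √(y : ℝ) * t :=
        mul_le_mul_of_nonneg_left hut (by positivity)
      have h5 : 0.951 * (√(y : ℝ) * t) ≤ 0.951 * (1.41422 * t ^ 2) :=
        mul_le_mul_of_nonneg_left hsq (by norm_num)
      have h6 : 0.951 * (1.41422 * t ^ 2) ≤ 1.346 * t ^ 2 := by nlinarith [sq_nonneg t]
      linarith
    exact le_of_mul_le_mul_right h3 (by linarith)
  have hNu : u ≤ N := by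
    have h3 : (0 : ℝ) < 0.951 * √(y : ℝ) * u := by positivity
    have h4 : (u : ℝ) < ((N + 1 : ℕ) : ℝ) := by push_cast; linarith
    have h5 : u < N + 1 := by exact_mod_cast h4
    omega
  have hlc := log_choose hu1 hNu
  have hlogr : log 0.951 + Y / 2 + log u ≤ log ((N : ℝ) + 1 - u) := by
    have h3 := log_le_log (by positivity) hratio
    rw [log_mul (by positivity) hu0.ne', log_mul (by norm_num) hsqpos.ne', log_sqrt hy0.le,
      ← hY] at h3
    linarith
  have hlog951 : -0.06 ≤ log (0.951 : ℝ) := by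
    have h3 := one_sub_inv_le_log_of_pos (by norm_num : (0 : ℝ) < 0.951)
    norm_num at h3 ⊢
    linarith
  have hlogu : log u ≤ 0.4 * u := by
    have h3 := add_one_le_exp ((u : ℝ) / exp 1 - 1)
    have h4 : (u : ℝ) / exp 1 ≤ exp (u / exp 1 - 1) := by linarith
    have h5 : (u : ℝ) ≤ exp (u / exp 1) := by
      rw [exp_sub, div_le_div_iff_of_pos_right (exp_pos 1)] at h4
      exact h4
    have h6 : log u ≤ u / exp 1 := by
      rw [log_le_iff_le_exp hu0]; exact h5
    have h7 : (u : ℝ) / exp 1 ≤ 0.4 * u := by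
      rw [div_le_iff₀ (exp_pos 1)]
      nlinarith [exp_one_gt_d9]
    linarith
  have hfin : t + t / (2 * log t) ≤ 2 * log (N.choose u) := by
    have h3 : u * (Y / 2 - 0.06 + log u) ≤ u * log ((N : ℝ) + 1 - u) :=
      mul_le_mul_of_nonneg_left (by linarith) hu0.le
    have hLpos : 0 < log t := by linarith
    have h4 : t / (1 + 2 * log t) ≤ u + 1 := by
      rw [div_le_iff₀ (by positivity)]
      have : (u + 1) * Y ≤ (u + 1) * (1 + 2 * log t) := mul_le_mul_of_nonneg_left hYle (by positivity)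
      linarith
    have h5 : t / (2 * log t) + (2 * log t + 5) ≤ 1.08 * (t / (1 + 2 * log t)) := by
      have e1 : 1.08 * (t / (1 + 2 * log t)) - t / (2 * log t) =
          t * (0.16 * log t - 1) / (2 * log t * (1 + 2 * log t)) := by
        field_simp
        ring
      have e2 : 2 * log t + 5 ≤ t * (0.16 * log t - 1) / (2 * log t * (1 + 2 * log t)) := by
        rw [le_div_iff₀ (by positivity)]
        have e3 : t * 1 ≤ t * (0.16 * log t - 1) :=
          mul_le_mul_of_nonneg_left (by linarith) htpos.le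
        linarith
      linarith
    linarith
  refine ⟨prods (pr y) u, ?_, ?_⟩
  · intro s hs
    obtain ⟨h3, h4, h5, _, _⟩ := prods_spec (fun p hp => (mem_pr.mp hp).1)
      (fun p hp => (mem_pr.mp hp).2) hs
    refine ⟨h3, h4.trans huD, fun p hp hps => ?_⟩
    have h6 : p ∈ pr y := h5 (Nat.mem_primeFactors.mpr ⟨hp, hps, by omega⟩)
    have h7 : (p : ℝ) ≤ y := by exact_mod_cast (mem_pr.mp h6).2
    rw [← ht]; linarith
  · rw [card_prods (fun p hp => (mem_pr.mp hp).1), card_pr, ← hN]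
    have hc : (0 : ℝ) < (N.choose u : ℝ) := by exact_mod_cast Nat.choose_pos hNu
    have e1 : (D : ℝ) * exp (log D / (2 * log (log D))) = exp (t + t / (2 * log t)) := by
      rw [exp_add, ← ht, ht, exp_log hD0]
    rw [e1, ← exp_log (by positivity : (0 : ℝ) < (N.choose u : ℝ) ^ 2), log_pow]
    apply exp_le_exp.mpr
    push_cast
    exact hfin

end Pool.Agent.TH55.SO
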