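import Pool.Agent.TH55.SO.One

set_option autoImplicit false

/-! Composite numbers without small witnesses: the final exclusions. -/

namespace Pool.Agent.TH55.SO

open Finset Real Pool.Agent.W57.SW Pool.Agent.H379R2.W

/-- the range `2 (log n)^2` -/
lemma final2 (C ε : ℝ) (hε : 0 < ε) : ∃ N : ℕ, ∀ n : ℕ, N ≤ n → Bd 2 n → ∀ a m P : ℕ,
    n - 1 = 2 ^ a * m → Odd m → Lgst P n →
    ¬ ((m : ℝ) ≤ (log n) ^ C ∨
      (m : ℝ) ^ 2 * log n ≤ exp (log P / (2 * log (log P))) ∨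
      ((P : ℝ) * log n ≤ 2 ^ a ∧
        ((Nat.gcd (P - 1) m : ℝ) ^ 2 * log n ≤ exp (log P / (2 * log (log P))) ∨
          ((Nat.gcd (P - 1) m : ℝ) ≤ (log n) ^ C ∧
            (m.divisors.card : ℝ) ≤ (log n) ^ (1 - ε))))) := by
  obtain ⟨N1, hN1⟩ := part1 (max C 1) (le_max_right _ _)
  obtain ⟨N3, hN3⟩ := partg (max C 1) (min ε 1) (le_max_right _ _) (lt_min hε one_pos)
    (min_le_right _ _)
  obtain ⟨N2, hN23, hN2⟩ := excl 2 le_rfl
  obtain ⟨D1, hD1⟩ := group1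
  have ev : ∀ᶠ L : ℝ in Filter.atTop, ((D1 : ℕ) : ℝ) ≤ L ∧ exp (exp 2) ≤ L :=
    (Filter.eventually_ge_atTop _).and (Filter.eventually_ge_atTop _)
  obtain ⟨L0, hL0⟩ := Filter.eventually_atTop.mp ev
  refine ⟨max (max (max N1 N3) N2) ⌈exp L0⌉₊, ?_⟩
  intro n hn hb a m P hnm hm hP hor
  have hnN13 : max N1 N3 ≤ n := (le_max_left _ _).trans ((le_max_left _ _).trans hn)
  have hnN1 : N1 ≤ n := (le_max_left _ _).trans hnN13
  have hnN3 : N3 ≤ n := (le_max_right _ _).trans hnN13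
  have hnN2 : N2 ≤ n := (le_max_right _ _).trans ((le_max_left _ _).trans hn)
  have hn3 : 3 ≤ n := hN23.trans hnN2
  have hn0 : (0 : ℝ) < n := by exact_mod_cast (by omega : 0 < n)
  have hLL0 : L0 ≤ log n := by
    rw [le_log_iff_exp_le hn0]
    exact Nat.ceil_le.mp ((le_max_right _ _).trans hn)
  obtain ⟨c1, c2⟩ := hL0 _ hLL0
  have hL1 := one_le_log hn3
  have hor' : (m : ℝ) ≤ (log n) ^ C ∨
      ((P : ℝ) * log n ≤ 2 ^ a ∧ (Nat.gcd (P - 1) m : ℝ) ≤ (log n) ^ C ∧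
            (m.divisors.card : ℝ) ≤ (log n) ^ (1 - ε)) ∨
      ((m : ℝ) ^ 2 * log n ≤ exp (log P / (2 * log (log P))) ∨
      ((P : ℝ) * log n ≤ 2 ^ a ∧
        (Nat.gcd (P - 1) m : ℝ) ^ 2 * log n ≤ exp (log P / (2 * log (log P))))) := by tauto
  rcases hor' with h | h | h
  · refine hN1 n hnN1 hb a m P hnm hm hP (h.trans ?_)
    exact rpow_le_rpow_of_exponent_le hL1 (le_max_left _ _)
  · refine hN3 n hnN3 hb a m P hnm hm hP h.1 (h.2.1.trans ?_) (h.2.2.trans ?_)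
    · exact rpow_le_rpow_of_exponent_le hL1 (le_max_left _ _)
    · exact rpow_le_rpow_of_exponent_le hL1 (by linarith [min_le_left ε 1])
  · obtain ⟨t, ht, hbt⟩ := exists_t hb.1 (two_le_range le_rfl hn3) hb.2.2 hnm hm
    have hbig := bd_prime_large hb hP.1 hP.2.1
    rw [rpow_two] at hbig
    have hPL : log (n : ℝ) ≤ P := by nlinarith
    have hP0 : (0 : ℝ) < P := by linarith
    have hD : D1 ≤ P := by
      have : ((D1 : ℕ) : ℝ) ≤ P := by linarith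
      exact_mod_cast this
    have hbt2 : ∀ b : ℕ, 1 < b → (b : ℝ) ≤ 2 * (log n) ^ 2 →
        (b : ZMod n) ^ (2 ^ t * m) = 1 := by
      intro b h1 h2
      exact hbt b h1 (by rw [rpow_two]; exact h2)
    have hG := hD1 n m t P (by omega) hm.pos hP.1 hP.2.1 hD hbt2
    refine hN2 n hnN2 hb a m P t (exp (log P / (2 * log (log P)))) hnm hm hP ht (exp_pos _) ?_ hG h
    -- `exp (log P / (2 log log P)) ≤ P ^ (1/4)`
    have e : (1 - 2 / 2 + 1 / 4 : ℝ) = 1 / 4 := by norm_num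
    rw [e, rpow_def_of_pos hP0]
    apply exp_le_exp.mpr
    have h1 : exp 2 ≤ log (P : ℝ) := by
      rw [le_log_iff_exp_le hP0]; linarith
    have h2 : 2 ≤ log (log (P : ℝ)) := by
      rw [le_log_iff_exp_le ((exp_pos _).trans_le h1)]; exact h1
    have h3 : 0 < log (P : ℝ) := (exp_pos _).trans_le h1
    rw [div_le_iff₀ (by linarith)]
    nlinarith

/-- the range `2 (log n)^A`, `A > 2` -/
lemma finalA (A ε : ℝ) (hA : 2 < A) (hε : 0 < ε) : ∃ N : ℕ, ∀ n : ℕ, N ≤ n → Bd A n →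
    ∀ a m P : ℕ, n - 1 = 2 ^ a * m → Odd m → Lgst P n →
    ¬ ((m : ℝ) ^ 2 * log n ≤ (P : ℝ) ^ (1 - 2 / A - ε) ∨
      ((P : ℝ) * log n ≤ 2 ^ a ∧
        (Nat.gcd (P - 1) m : ℝ) ^ 2 * log n ≤ (P : ℝ) ^ (1 - 2 / A - ε))) := by
  obtain ⟨N2, hN23, hN2⟩ := excl A hA.le
  obtain ⟨D1, hD1⟩ := group2 A 1 (ε / 2) (by norm_num) (by linarith) (by positivity)
  have ev : ∀ᶠ L : ℝ in Filter.atTop, ((D1 : ℕ) : ℝ) ≤ L := Filter.eventually_ge_atTop _
  obtain ⟨L0, hL0⟩ := Filter.eventually_atTop.mp ev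
  refine ⟨max N2 ⌈exp L0⌉₊, ?_⟩
  intro n hn hb a m P hnm hm hP hor
  have hnN2 : N2 ≤ n := (le_max_left _ _).trans hn
  have hn3 : 3 ≤ n := hN23.trans hnN2
  have hn0 : (0 : ℝ) < n := by exact_mod_cast (by omega : 0 < n)
  have hLL0 : L0 ≤ log n := by
    rw [le_log_iff_exp_le hn0]
    exact Nat.ceil_le.mp ((le_max_right _ _).trans hn)
  have c1 := hL0 _ hLL0
  have hL1 := one_le_log hn3
  obtain ⟨t, ht, hbt⟩ := exists_t hb.1 (two_le_range hA.le hn3) hb.2.2 hnm hm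
  have hbig := bd_prime_large hb hP.1 hP.2.1
  have hsq := sq_le_rpow hA.le hn3
  have hPL : log (n : ℝ) ≤ P := by nlinarith
  have hP0 : (0 : ℝ) < P := by linarith
  have hP1 : (1 : ℝ) ≤ P := by linarith
  have hD : D1 ≤ P := by
    have : ((D1 : ℕ) : ℝ) ≤ P := by linarith
    exact_mod_cast this
  have hPn : P ≤ n := Nat.le_of_dvd (by omega) hP.2.1
  have hG := hD1 n m t P (by omega) hm.pos hP.1 hP.2.1 hD
    (by rw [rpow_one]; exact log_le_log hP0 (by exact_mod_cast hPn)) hbt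
  have hF : (P : ℝ) * (P : ℝ) ^ (1 - 2 / A - ε) ≤
      ((2 : ℝ) ^ t * (Nat.gcd (P - 1) m : ℝ)) ^ 2 := by
    have h1 := pow_le_pow_left₀ (by positivity) hG 2
    refine le_trans (le_of_eq ?_) h1
    rw [← rpow_natCast ((P : ℝ) ^ (1 - 1 / A - ε / 2)), ← rpow_mul hP0.le]
    nth_rewrite 1 [← rpow_one (P : ℝ)]
    rw [← rpow_add hP0]
    congr 1
    push_cast
    ring
  refine hN2 n hnN2 hb a m P t _ hnm hm hP ht (by positivity) ?_ hF hor
  exact rpow_le_rpow_of_exponent_le hP1 (by linarith)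

/-- all ranges together -/
lemma finalU (A C ε : ℝ) (hA : 2 ≤ A) (hε : 0 < ε) : ∃ N : ℕ, ∀ n : ℕ, N ≤ n → Bd A n →
    ∀ a m P : ℕ, n - 1 = 2 ^ a * m → Odd m → Lgst P n →
    ¬ ((m : ℝ) ≤ (log n) ^ C ∨
      (m : ℝ) ^ 2 * log n ≤
        max (exp (log P / (2 * log (log P)))) ((P : ℝ) ^ (1 - 2 / A - ε)) ∨
      ((P : ℝ) * log n ≤ 2 ^ a ∧
        ((Nat.gcd (P - 1) m : ℝ) ^ 2 * log n ≤
            max (exp (log P / (2 * log (log P)))) ((P : ℝ) ^ (1 - 2 / A - ε)) ∨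
          ((Nat.gcd (P - 1) m : ℝ) ≤ (log n) ^ C ∧
            (m.divisors.card : ℝ) ≤ (log n) ^ (1 - ε))))) := by
  obtain ⟨N1, hN1⟩ := final2 C ε hε
  obtain ⟨N2, hN2⟩ : ∃ N : ℕ, ∀ n : ℕ, N ≤ n → Bd A n →
      ∀ a m P : ℕ, n - 1 = 2 ^ a * m → Odd m → Lgst P n →
      ¬ ((m : ℝ) ^ 2 * log n ≤ (P : ℝ) ^ (1 - 2 / A - ε) ∨
        ((P : ℝ) * log n ≤ 2 ^ a ∧
          (Nat.gcd (P - 1) m : ℝ) ^ 2 * log n ≤ (P : ℝ) ^ (1 - 2 / A - ε))) := by
    rcases hA.lt_or_eq with h | h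
    · exact finalA A ε h hε
    · subst h
      refine ⟨3, fun n hn _ a m P _ hm hP hor => ?_⟩
      have hL := one_le_log hn
      have hP1 : (1 : ℝ) < P := by exact_mod_cast hP.1.one_lt
      have h1 : (P : ℝ) ^ (1 - 2 / 2 - ε : ℝ) < 1 := rpow_lt_one_of_one_lt_of_neg hP1 (by linarith)
      have hq1 : 0 < P - 1 := by have := hP.1.two_le; omega
      have key : ∀ d : ℕ, 1 ≤ d → ¬ ((d : ℝ) ^ 2 * log n ≤ (P : ℝ) ^ (1 - 2 / 2 - ε : ℝ)) := by
        intro d hd h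
        have hd' : (1 : ℝ) ≤ d := by exact_mod_cast hd
        nlinarith
      rcases hor with h | h
      · exact key m hm.pos h
      · exact key _ (Nat.gcd_pos_of_pos_left _ hq1) h.2
  refine ⟨max 3 (max N1 N2), fun n hn hb a m P hnm hm hP hor => ?_⟩
  have hn3 : 3 ≤ n := (le_max_left _ _).trans hn
  have hnN1 : N1 ≤ n := (le_max_left _ _).trans ((le_max_right _ _).trans hn)
  have hnN2 : N2 ≤ n := (le_max_right _ _).trans ((le_max_right _ _).trans hn)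
  have hb2 : Bd 2 n := by
    refine ⟨hb.1, hb.2.1, fun b h1 h2 => hb.2.2 b h1 (h2.trans ?_)⟩
    rw [rpow_two]
    linarith [sq_le_rpow hA hn3]
  have k1 := hN1 n hnN1 hb2 a m P hnm hm hP
  have k2 := hN2 n hnN2 hb a m P hnm hm hP
  simp only [le_max_iff] at hor
  tauto

end Pool.Agent.TH55.SO
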