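import Pool.Agent.TH55.SO.Str
import Pool.Agent.H510R2.Div

set_option autoImplicit false

/-! Composite numbers without small witnesses for which the odd part of `n - 1` is small. -/

namespace Pool.Agent.TH55.SO

open Finset Real Pool.Agent.W57.SW Pool.Agent.H379R2.W

/-- `P` is the largest prime factor of `n` -/
def Lgst (P n : ℕ) : Prop := P.Prime ∧ P ∣ n ∧ ∀ q : ℕ, q.Prime → q ∣ n → q ≤ P

lemma card_le_log {n : ℕ} (hn : 1 ≤ n) (hsq : Squarefree n)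
    (h3 : ∀ p : ℕ, p.Prime → p ∣ n → 3 ≤ p) : (n.primeFactors.card : ℝ) ≤ log n := by
  have h1 : 3 ^ n.primeFactors.card ≤ n := by
    calc 3 ^ n.primeFactors.card = ∏ _p ∈ n.primeFactors, 3 := by rw [prod_const]
      _ ≤ ∏ p ∈ n.primeFactors, p := by
          apply prod_le_prod'
          intro p hp
          exact h3 p (Nat.prime_of_mem_primeFactors hp) (Nat.dvd_of_mem_primeFactors hp)
      _ = n := Nat.prod_primeFactors_of_squarefree hsq
  have h2 : ((3 : ℝ) ^ n.primeFactors.card) ≤ n := by exact_mod_cast h1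
  have h4 := log_le_log (by positivity) h2
  rw [log_pow] at h4
  have h5 : (1 : ℝ) ≤ log 3 := by
    rw [le_log_iff_exp_le (by norm_num)]; linarith [exp_one_lt_d9]
  have h6 : (n.primeFactors.card : ℝ) * 1 ≤ n.primeFactors.card * log 3 :=
    mul_le_mul_of_nonneg_left h5 (by positivity)
  linarith

lemma sigma_lt {n P : ℕ} (hn : 2 ≤ n) (hsq : Squarefree n)
    (h3 : ∀ p : ℕ, p.Prime → p ∣ n → 3 ≤ p) (hP : Lgst P n) :
    ((∑ p ∈ n.primeFactors, (p - 1) : ℕ) : ℝ) < P * log n := by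
  have hK := card_le_log (by omega) hsq h3
  have hK1 : 1 ≤ n.primeFactors.card := Finset.card_pos.mpr (Nat.nonempty_primeFactors.mpr hn)
  have h1 : ∑ p ∈ n.primeFactors, (p - 1) ≤ n.primeFactors.card * (P - 1) := by
    have := Finset.sum_le_card_nsmul n.primeFactors (fun p => p - 1) (P - 1) (fun p hp => by
      have := hP.2.2 p (Nat.prime_of_mem_primeFactors hp) (Nat.dvd_of_mem_primeFactors hp)
      show p - 1 ≤ P - 1
      omega)
    simpa using this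
  have hP1 : 1 ≤ P := hP.1.one_lt.le
  have h2 : n.primeFactors.card * (P - 1) < n.primeFactors.card * P :=
    Nat.mul_lt_mul_of_pos_left (by omega) (by omega)
  have h4 : ((∑ p ∈ n.primeFactors, (p - 1) : ℕ) : ℝ) < n.primeFactors.card * P := by
    exact_mod_cast h1.trans_lt h2
  have h5 : (n.primeFactors.card : ℝ) * P ≤ log n * P :=
    mul_le_mul_of_nonneg_right hK (by positivity)
  linarith

/-- if the power of two in `n - 1` is large, then the common power of two is small -/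
lemma T_sq_lt {n a m t P : ℕ} (hn2 : 2 ≤ n) (hsq : Squarefree n)
    (h3 : ∀ p : ℕ, p.Prime → p ∣ n → 3 ≤ p) (hP : Lgst P n) (hnm : n - 1 = 2 ^ a * m)
    (ht : ∀ p : ℕ, p.Prime → p ∣ n → 2 ^ t ∣ p - 1) (hPa : (P : ℝ) * log n ≤ 2 ^ a) :
    ((2 : ℝ) ^ t) ^ 2 < P * log n := by
  have h1 := sigma_lt hn2 hsq h3 hP
  rcases sigma_large hn2 hsq hnm ht with h | h
  · exfalso
    have : ((2 : ℝ) ^ a) ≤ ((∑ p ∈ n.primeFactors, (p - 1) : ℕ) : ℝ) := by exact_mod_cast h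
    linarith
  · have : (((2 : ℝ) ^ t) ^ 2) ≤ ((∑ p ∈ n.primeFactors, (p - 1) : ℕ) : ℝ) := by exact_mod_cast h
    linarith

/-- if the power of two in `n - 1` is small, then the cofactor of `P` is small -/
lemma cofactor_lt {n a m P r : ℕ} (hr : n = P * r) (hr1 : 1 ≤ r) (hP : 1 ≤ P) (hm : 1 ≤ m)
    (hnm : n - 1 = 2 ^ a * m) (hPa : (2 : ℝ) ^ a < (P : ℝ) * log n) :
    ((r - 1 : ℕ) : ℝ) < m * log n := by
  have h1 : P * (r - 1) ≤ 2 ^ a * m := by
    rw [← hnm, hr, Nat.mul_sub, mul_one]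
    omega
  have h2 : (P : ℝ) * ((r - 1 : ℕ) : ℝ) ≤ 2 ^ a * m := by exact_mod_cast h1
  have hm0 : (0 : ℝ) < m := by exact_mod_cast hm
  have hP0 : (0 : ℝ) < P := by exact_mod_cast hP
  have h3 : (2 : ℝ) ^ a * m < (P : ℝ) * log n * m := mul_lt_mul_of_pos_right hPa hm0
  have h4 : (P : ℝ) * ((r - 1 : ℕ) : ℝ) < P * (m * log n) := by linarith
  exact lt_of_mul_lt_mul_left h4 hP0.le

lemma bd_three {A : ℝ} (hA : 2 ≤ A) {n : ℕ} (hn : 3 ≤ n) (h : Bd A n) :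
    ∀ p : ℕ, p.Prime → p ∣ n → 3 ≤ p := by
  intro p hp hpn
  have h1 := bd_prime_large h hp hpn
  have h2 := sq_le_rpow hA hn
  have h4 := one_le_log hn
  have h5 : (2 : ℝ) < p := by nlinarith
  exact_mod_cast h5

lemma two_le_range {A : ℝ} (hA : 2 ≤ A) {n : ℕ} (hn : 3 ≤ n) : (2 : ℝ) ≤ 2 * (log n) ^ A := by
  have h2 := sq_le_rpow hA hn
  have h4 := one_le_log hn
  nlinarith

/-- the two exclusions -/
lemma excl (A : ℝ) (hA : 2 ≤ A) : ∃ N : ℕ, 3 ≤ N ∧ ∀ n : ℕ, N ≤ n → Bd A n → ∀ a m P t : ℕ, ∀ F : ℝ,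
    n - 1 = 2 ^ a * m → Odd m → Lgst P n → (∀ p : ℕ, p.Prime → p ∣ n → 2 ^ t ∣ p - 1) →
    0 < F → F ≤ (P : ℝ) ^ (1 - 2 / A + 1 / 4) →
    (P : ℝ) * F ≤ ((2 : ℝ) ^ t * (Nat.gcd (P - 1) m : ℝ)) ^ 2 →
    ¬ ((m : ℝ) ^ 2 * log n ≤ F ∨
      ((P : ℝ) * log n ≤ 2 ^ a ∧ (Nat.gcd (P - 1) m : ℝ) ^ 2 * log n ≤ F)) := by
  obtain ⟨N1, hN1⟩ := bad_squarefree
  obtain ⟨N2, hN23, hN2⟩ := bd_gcd A (1 / 8) hA (by norm_num)
  refine ⟨max N1 N2, hN23.trans (le_max_right _ _), ?_⟩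
  intro n hn hb a m P t F hnm hm hP ht hF0 hF hG hor
  have hn3 : 3 ≤ n := hN23.trans ((le_max_right _ _).trans hn)
  have hsq := hN1 n ((le_max_left _ _).trans hn) (hb.bad hA hn3)
  have h3 := bd_three hA hn3 hb
  have hL := one_le_log hn3
  have hP0 : (0 : ℝ) < P := by exact_mod_cast hP.1.pos
  have hP1 : (1 : ℝ) ≤ P := by exact_mod_cast hP.1.one_lt.le
  have hm1 : 1 ≤ m := hm.pos
  have hq1 : 0 < P - 1 := by have := hP.1.two_le; omega
  have hd1 : 1 ≤ Nat.gcd (P - 1) m := Nat.gcd_pos_of_pos_left _ hq1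
  have hdm : Nat.gcd (P - 1) m ≤ m := Nat.gcd_le_right _ hm1
  have hd0 : (0 : ℝ) < (Nat.gcd (P - 1) m : ℝ) := by exact_mod_cast hd1
  have hdm' : (Nat.gcd (P - 1) m : ℝ) ≤ m := by exact_mod_cast hdm
  have key : (P : ℝ) * log n ≤ 2 ^ a → ¬ ((Nat.gcd (P - 1) m : ℝ) ^ 2 * log n ≤ F) := by
    intro hPa hc
    have h1 := T_sq_lt (by omega) hsq h3 hP hnm ht hPa
    have h2 : ((2 : ℝ) ^ t * (Nat.gcd (P - 1) m : ℝ)) ^ 2 <
        P * log n * (Nat.gcd (P - 1) m : ℝ) ^ 2 := by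
      rw [mul_pow]
      exact mul_lt_mul_of_pos_right h1 (by positivity)
    have h4 : (P : ℝ) * ((Nat.gcd (P - 1) m : ℝ) ^ 2 * log n) ≤ P * F :=
      mul_le_mul_of_nonneg_left hc hP0.le
    linarith
  rcases hor with h | ⟨h, h'⟩
  · by_cases hPa : (P : ℝ) * log n ≤ 2 ^ a
    · refine key hPa ?_
      have h1 : (Nat.gcd (P - 1) m : ℝ) ^ 2 ≤ (m : ℝ) ^ 2 := pow_le_pow_left₀ hd0.le hdm' 2
      have h2 : (Nat.gcd (P - 1) m : ℝ) ^ 2 * log n ≤ (m : ℝ) ^ 2 * log n :=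
        mul_le_mul_of_nonneg_right h1 (by linarith)
      linarith
    · push Not at hPa
      obtain ⟨r, hr⟩ := hP.2.1
      obtain ⟨g1, g2⟩ := hN2 n ((le_max_right _ _).trans hn) hb P r hP.1 hr
      have h1 := cofactor_lt hr (by omega) hP.1.one_lt.le hm1 hnm hPa
      have h2 : (Nat.gcd (P - 1) (r - 1) : ℝ) ≤ ((r - 1 : ℕ) : ℝ) := by
        exact_mod_cast Nat.gcd_le_right _ (by omega)
      have h4 : (P : ℝ) ^ (1 - 1 / A - 1 / 8) < m * log n := (g1.trans h2).trans_lt h1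
      have h5 : ((P : ℝ) ^ (1 - 1 / A - 1 / 8)) ^ 2 < (m * log n) ^ 2 :=
        pow_lt_pow_left₀ h4 (by positivity) (by norm_num)
      have h6 : (m * log n) ^ 2 ≤ F * log n := by
        have : (m : ℝ) ^ 2 * log n * log n ≤ F * log n := mul_le_mul_of_nonneg_right h (by linarith)
        calc (m * log n) ^ 2 = (m : ℝ) ^ 2 * log n * log n := by ring
          _ ≤ _ := this
      have h7 : F * log n ≤ (P : ℝ) ^ (1 - 2 / A + 1 / 4) * log n :=
        mul_le_mul_of_nonneg_right hF (by linarith)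
      have h8 : ((P : ℝ) ^ (1 - 1 / A - 1 / 8)) ^ 2 =
          (P : ℝ) ^ (1 - 2 / A + 1 / 4) * (P : ℝ) ^ (1 / 2 : ℝ) := by
        rw [← rpow_natCast, ← rpow_mul hP0.le, ← rpow_add hP0]
        congr 1
        push_cast
        ring
      have h9 : (P : ℝ) ^ (1 - 2 / A + 1 / 4) * (P : ℝ) ^ (1 / 2 : ℝ) <
          (P : ℝ) ^ (1 - 2 / A + 1 / 4) * log n := by
        rw [← h8]; linarith
      have h10 : (P : ℝ) ^ (1 / 2 : ℝ) < log n := lt_of_mul_lt_mul_left h9 (by positivity)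
      have h11 := bd_prime_large hb hP.1 hP.2.1
      have h12 := sq_le_rpow hA hn3
      have h13 : (log (n : ℝ)) ^ 2 ≤ P := by nlinarith
      have h14 : log (n : ℝ) ≤ (P : ℝ) ^ (1 / 2 : ℝ) := by
        rw [← sqrt_eq_rpow]
        exact le_sqrt_of_sq_le h13
      linarith
  · exact key h h'

end Pool.Agent.TH55.SO
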