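import Pool.Agent.TH55.SO.Mid

set_option autoImplicit false

/-! The odd part of `n - 1` is at most a power of `log n`. -/

namespace Pool.Agent.TH55.SO

open Finset Real Pool.Agent.W57.SW Pool.Agent.H379R2.W

/-- the prime factors of `n` are determined by a divisor of `m` and a small number -/
lemma card_le_pairs {n m t : ℕ} {X : ℕ} (hm : Odd m) (ht : ∀ p : ℕ, p.Prime → p ∣ n → 2 ^ t ∣ p - 1)
    (hX : ∀ p : ℕ, p.Prime → p ∣ n → p - 1 ≤ 2 ^ t * Nat.gcd (p - 1) m * X) :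
    n.primeFactors.card ≤ m.divisors.card * (X + 1) := by
  have hdiv : ∀ p : ℕ, p.Prime → p ∣ n → 2 ^ t * Nat.gcd (p - 1) m ∣ p - 1 := by
    intro p hp hpn
    apply Nat.Coprime.mul_dvd_of_dvd_of_dvd _ (ht p hp hpn) (Nat.gcd_dvd_left _ _)
    apply Nat.Coprime.pow_left
    rw [Nat.coprime_two_left]
    exact Odd.of_dvd_nat hm (Nat.gcd_dvd_right _ _)
  have h1 : n.primeFactors.card ≤ (m.divisors ×ˢ range (X + 1)).card := by
    apply Finset.card_le_card_of_injOn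
      (fun p => (Nat.gcd (p - 1) m, (p - 1) / (2 ^ t * Nat.gcd (p - 1) m)))
    · intro p hp
      have hpp := Nat.prime_of_mem_primeFactors hp
      have hpn := Nat.dvd_of_mem_primeFactors hp
      have hp1 : 0 < p - 1 := by have := hpp.two_le; omega
      have hpos : 0 < 2 ^ t * Nat.gcd (p - 1) m :=
        Nat.mul_pos (by positivity) (Nat.gcd_pos_of_pos_left _ hp1)
      rw [mem_coe, mem_product, Nat.mem_divisors, mem_range, Nat.lt_succ_iff]
      refine ⟨⟨Nat.gcd_dvd_right _ _, hm.pos.ne'⟩, ?_⟩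
      apply Nat.div_le_of_le_mul
      exact hX p hpp hpn
    · intro p hp q hq hpq
      have hpp := Nat.prime_of_mem_primeFactors hp
      have hpn := Nat.dvd_of_mem_primeFactors hp
      have hqp := Nat.prime_of_mem_primeFactors hq
      have hqn := Nat.dvd_of_mem_primeFactors hq
      rw [Prod.mk.injEq] at hpq
      obtain ⟨e1, e2⟩ := hpq
      have f1 := Nat.div_mul_cancel (hdiv p hpp hpn)
      have f2 := Nat.div_mul_cancel (hdiv q hqp hqn)
      rw [e2, e1, f2] at f1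
      have := hpp.two_le
      have := hqp.two_le
      omega
  rwa [card_product, card_range] at h1

/-- if the odd part of `n - 1` is small, then the power of two in `n - 1` is large -/
lemma pla (C : ℝ) (hC : 1 ≤ C) : ∃ N : ℕ, ∀ n : ℕ, N ≤ n → Bd 2 n → ∀ a m P : ℕ,
    n - 1 = 2 ^ a * m → Odd m → Lgst P n → (m : ℝ) ≤ (log n) ^ C → (P : ℝ) * log n ≤ 2 ^ a := by
  obtain ⟨N2, hN23, hN2⟩ := bd_gcd 2 (1 / 8) le_rfl (by norm_num)
  have ev2 : ∀ᶠ L : ℝ in Filter.atTop, 4 * (C + 1) * log L + 1 < L := by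
    have h := isLittleO_log_id_atTop.def (show (0 : ℝ) < 1 / (8 * (C + 1)) by positivity)
    filter_upwards [h, Filter.eventually_ge_atTop 3] with L h1 h2
    rw [norm_of_nonneg (log_nonneg (by linarith)), id, norm_of_nonneg (by linarith)] at h1
    have h3 : 4 * (C + 1) * log L ≤ 4 * (C + 1) * (1 / (8 * (C + 1)) * L) :=
      mul_le_mul_of_nonneg_left h1 (by positivity)
    have h4 : 4 * (C + 1) * (1 / (8 * (C + 1)) * L) = L / 2 := by field_simp; norm_num
    linarith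
  obtain ⟨L0, hL0⟩ := Filter.eventually_atTop.mp (ev2.and (Filter.eventually_ge_atTop 3))
  refine ⟨max N2 ⌈exp L0⌉₊, ?_⟩
  intro n hn hb a m P hnm hm hP hmC
  have hnN2 : N2 ≤ n := (le_max_left _ _).trans hn
  have hn3 : 3 ≤ n := hN23.trans hnN2
  have hn0 : (0 : ℝ) < n := by exact_mod_cast (by omega : 0 < n)
  obtain ⟨L, hLdef⟩ : ∃ L : ℝ, L = log n := ⟨_, rfl⟩
  have hLL0 : L0 ≤ L := by
    rw [hLdef, le_log_iff_exp_le hn0]
    exact Nat.ceil_le.mp ((le_max_right _ _).trans hn)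
  obtain ⟨c2, c6⟩ := hL0 L hLL0
  have hLpos : 0 < L := by linarith
  have hL1 : 1 ≤ L := by linarith
  have hP0 : (0 : ℝ) < P := by exact_mod_cast hP.1.pos
  have hm1 : 1 ≤ m := hm.pos
  have hm0 : (0 : ℝ) < m := by exact_mod_cast hm1
  rw [← hLdef] at hmC
  by_contra hcon
  push Not at hcon
  obtain ⟨r, hr⟩ := hP.2.1
  obtain ⟨g1, g2⟩ := hN2 n hnN2 hb P r hP.1 hr
  have h1 := cofactor_lt hr (by omega) hP.1.one_lt.le hm1 hnm hcon
  have h2 : (Nat.gcd (P - 1) (r - 1) : ℝ) ≤ ((r - 1 : ℕ) : ℝ) := by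
    exact_mod_cast Nat.gcd_le_right _ (by omega)
  have h4 : m * log n ≤ L ^ (C + 1) := by
    rw [← hLdef, rpow_add hLpos, rpow_one]
    exact mul_le_mul_of_nonneg_right hmC hLpos.le
  have h5 : (P : ℝ) ^ (3 / 8 : ℝ) < L ^ (C + 1) := by
    have e : (1 - 1 / 2 - 1 / 8 : ℝ) = 3 / 8 := by norm_num
    rw [e] at g1
    linarith
  have h6 : (r : ℝ) ≤ 2 * L ^ (C + 1) := by
    have e1 : ((r - 1 : ℕ) : ℝ) = r - 1 := by rw [Nat.cast_sub (by omega)]; norm_num
    have e2 : (1 : ℝ) ≤ L ^ (C + 1) := one_le_rpow hL1 (by linarith)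
    linarith
  have h7 := log_lt_log (by positivity) h5
  rw [log_rpow hP0, log_rpow hLpos] at h7
  have hr0 : (0 : ℝ) < r := by exact_mod_cast (by omega : 0 < r)
  have h8 := log_le_log hr0 h6
  rw [log_mul (by norm_num) (by positivity), log_rpow hLpos] at h8
  have h9 : L = log P + log r := by
    rw [hLdef, hr]; push_cast
    rw [log_mul hP0.ne' hr0.ne']
  have h10 := log_two_lt_d9
  have hl : 0 ≤ log L := log_nonneg hL1
  have h11 : 0 ≤ (C + 1) * log L := by positivity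
  linarith

/-- the general exclusion for small prime factors -/
lemma partg (C ε : ℝ) (hC : 1 ≤ C) (hε : 0 < ε) (hε1 : ε ≤ 1) : ∃ N : ℕ, ∀ n : ℕ, N ≤ n → Bd 2 n →
    ∀ a m P : ℕ, n - 1 = 2 ^ a * m → Odd m → Lgst P n → (P : ℝ) * log n ≤ 2 ^ a →
    (Nat.gcd (P - 1) m : ℝ) ≤ (log n) ^ C → (m.divisors.card : ℝ) ≤ (log n) ^ (1 - ε) → False := by
  obtain ⟨η, hη⟩ : ∃ η : ℝ, η = ε / (8 * (2 * C + 1)) := ⟨_, rfl⟩
  have hη0 : 0 < η := by rw [hη]; positivity
  have hη1 : (2 * C + 1) * η = ε / 8 := by rw [hη]; field_simp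
  have hη2 : η ≤ 1 / 24 := by nlinarith
  obtain ⟨N1, hN1⟩ := bad_squarefree
  obtain ⟨D1, hD1⟩ := group1
  obtain ⟨D2, hD2⟩ := group2 2 η (η / 2) hη0 (by linarith) (by positivity)
  -- eventual conditions
  have ev1 : ∀ᶠ L : ℝ in Filter.atTop, (1 : ℝ) ≤ log L :=
    tendsto_log_atTop.eventually (Filter.eventually_ge_atTop 1)
  have ev3 : ∀ᶠ L : ℝ in Filter.atTop, 2 * (2 * C + 1) * (log L) ^ 2 ≤ L ^ η := by
    have h := (isLittleO_log_rpow_atTop (show 0 < η / 2 by positivity)).def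
      (show (0 : ℝ) < 1 / (2 * (2 * C + 1)) by positivity)
    filter_upwards [h, Filter.eventually_ge_atTop 3] with L h1 h2
    have hL0 : 0 < L := by linarith
    have hl : 0 ≤ log L := log_nonneg (by linarith)
    rw [norm_of_nonneg hl, norm_of_nonneg (by positivity)] at h1
    have h3 := pow_le_pow_left₀ hl h1 2
    have h4 : (1 / (2 * (2 * C + 1)) * L ^ (η / 2)) ^ 2 = (1 / (2 * (2 * C + 1))) ^ 2 * L ^ η := by
      rw [mul_pow, ← rpow_natCast (L ^ (η / 2)), ← rpow_mul hL0.le]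
      congr 2
      push_cast
      ring
    rw [h4] at h3
    have h5 : 2 * (2 * C + 1) * (log L) ^ 2 ≤
        2 * (2 * C + 1) * ((1 / (2 * (2 * C + 1))) ^ 2 * L ^ η) :=
      mul_le_mul_of_nonneg_left h3 (by positivity)
    have h6 : 2 * (2 * C + 1) * ((1 / (2 * (2 * C + 1))) ^ 2 * L ^ η) =
        1 / (2 * (2 * C + 1)) * L ^ η := by field_simp
    have h7 : 1 / (2 * (2 * C + 1)) ≤ (1 : ℝ) := by
      rw [div_le_one (by positivity)]; linarith
    have h8 : 1 / (2 * (2 * C + 1)) * L ^ η ≤ 1 * L ^ η :=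
      mul_le_mul_of_nonneg_right h7 (by positivity)
    linarith
  have ev4 : ∀ᶠ L : ℝ in Filter.atTop, 4 * (2 * C + 1) * log L < L ^ (3 * ε / 4) := by
    have h := (isLittleO_log_rpow_atTop (show (0 : ℝ) < 3 * ε / 4 by positivity)).def
      (show (0 : ℝ) < 1 / (8 * (2 * C + 1)) by positivity)
    filter_upwards [h, Filter.eventually_ge_atTop 3] with L h1 h2
    have hL0 : 0 < L := by linarith
    have hl : 0 ≤ log L := log_nonneg (by linarith)
    rw [norm_of_nonneg hl, norm_of_nonneg (by positivity)] at h1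
    have h3 : 4 * (2 * C + 1) * log L ≤
        4 * (2 * C + 1) * (1 / (8 * (2 * C + 1)) * L ^ (3 * ε / 4)) :=
      mul_le_mul_of_nonneg_left h1 (by positivity)
    have h4 : 4 * (2 * C + 1) * (1 / (8 * (2 * C + 1)) * L ^ (3 * ε / 4)) =
        L ^ (3 * ε / 4) / 2 := by field_simp; norm_num
    have h5 : 0 < L ^ (3 * ε / 4) := by positivity
    linarith
  have ev5 : ∀ᶠ L : ℝ in Filter.atTop, ((max D1 D2 : ℕ) : ℝ) ≤ L ∧ 3 ≤ L :=
    (Filter.eventually_ge_atTop _).and (Filter.eventually_ge_atTop _)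
  obtain ⟨L0, hL0⟩ := Filter.eventually_atTop.mp (ev1.and (ev3.and (ev4.and ev5)))
  refine ⟨max (max N1 3) ⌈exp L0⌉₊, ?_⟩
  intro n hn hb a m P hnm hm hP hPa hdC hτ
  have hnN1 : N1 ≤ n := (le_max_left _ _).trans ((le_max_left _ _).trans hn)
  have hn3 : 3 ≤ n := (le_max_right _ _).trans ((le_max_left _ _).trans hn)
  have hn0 : (0 : ℝ) < n := by exact_mod_cast (by omega : 0 < n)
  obtain ⟨L, hLdef⟩ : ∃ L : ℝ, L = log n := ⟨_, rfl⟩
  have hLL0 : L0 ≤ L := by
    rw [hLdef, le_log_iff_exp_le hn0]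
    exact Nat.ceil_le.mp ((le_max_right _ _).trans hn)
  obtain ⟨c1, c3, c4, c5, c6⟩ := hL0 L hLL0
  have hLpos : 0 < L := by linarith
  have hL1 : 1 ≤ L := by linarith
  have hsq := hN1 n hnN1 (hb.bad le_rfl hn3)
  have h3 := bd_three le_rfl hn3 hb
  have hP0 : (0 : ℝ) < P := by exact_mod_cast hP.1.pos
  have hm1 : 1 ≤ m := hm.pos
  have hm0 : (0 : ℝ) < m := by exact_mod_cast hm1
  rw [← hLdef] at hdC hτ
  obtain ⟨t, ht, hbt⟩ := exists_t hb.1 (two_le_range le_rfl hn3) hb.2.2 hnm hm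
  have hPn : P ≤ n := Nat.le_of_dvd (by omega) hP.2.1
  -- all prime factors are large
  have hbig : ∀ q : ℕ, q.Prime → q ∣ n → D1 ≤ q ∧ D2 ≤ q := by
    intro q hq hqn
    have h1 := bd_prime_large hb hq hqn
    rw [← hLdef, rpow_two] at h1
    have h2 : ((max D1 D2 : ℕ) : ℝ) ≤ q := by nlinarith
    have h4 : max D1 D2 ≤ q := by exact_mod_cast h2
    exact ⟨(le_max_left _ _).trans h4, (le_max_right _ _).trans h4⟩
  have hT := T_sq_lt (by omega) hsq h3 hP hnm ht hPa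
  rw [← hLdef] at hT
  have hq1 : 0 < P - 1 := by have := hP.1.two_le; omega
  have hd1 : 1 ≤ Nat.gcd (P - 1) m := Nat.gcd_pos_of_pos_left _ hq1
  have hd0 : (0 : ℝ) < (Nat.gcd (P - 1) m : ℝ) := by exact_mod_cast hd1
  -- upper bound for the group of `P`
  have hup : ((2 : ℝ) ^ t * (Nat.gcd (P - 1) m : ℝ)) ^ 2 < P * L ^ (2 * C + 1) := by
    rw [mul_pow]
    have h1 : (Nat.gcd (P - 1) m : ℝ) ^ 2 ≤ (L ^ C) ^ 2 :=
      pow_le_pow_left₀ hd0.le hdC 2
    have h2 : (L ^ C) ^ 2 = L ^ (2 * C) := by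
      rw [← rpow_natCast, ← rpow_mul hLpos.le]
      congr 1
      push_cast
      ring
    have h4 : ((2 : ℝ) ^ t) ^ 2 * (Nat.gcd (P - 1) m : ℝ) ^ 2 <
        P * L * (Nat.gcd (P - 1) m : ℝ) ^ 2 := mul_lt_mul_of_pos_right hT (by positivity)
    have h5 : P * L * (Nat.gcd (P - 1) m : ℝ) ^ 2 ≤ P * L * L ^ (2 * C) := by
      rw [← h2]
      exact mul_le_mul_of_nonneg_left h1 (by positivity)
    have h6 : (P : ℝ) * L ^ (2 * C + 1) = P * L * L ^ (2 * C) := by
      rw [rpow_add hLpos, rpow_one]; ring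
    linarith
  -- first bound for `P`
  have hbt2 : ∀ b : ℕ, 1 < b → (b : ℝ) ≤ 2 * (log n) ^ 2 → (b : ZMod n) ^ (2 ^ t * m) = 1 := by
    intro b h1 h2
    exact hbt b h1 (by rw [rpow_two]; exact h2)
  have hlogP : log P ≤ L ^ η := by
    have g1 := hD1 n m t P (by omega) hm1 hP.1 hP.2.1 (hbig P hP.1 hP.2.1).1 hbt2
    have h1 : (P : ℝ) * exp (log P / (2 * log (log P))) < P * L ^ (2 * C + 1) := g1.trans_lt hup
    have h2 := lt_of_mul_lt_mul_left h1 hP0.le
    have h4 := log_lt_log (exp_pos _) h2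
    rw [log_exp, log_rpow hLpos] at h4
    have h5 : log P ≤ L := by
      rw [hLdef]; exact log_le_log hP0 (by exact_mod_cast hPn)
    by_cases h6 : log (P : ℝ) ≤ 3
    · have h7 : (1 : ℝ) ≤ (log L) ^ 2 := by nlinarith
      nlinarith
    · push Not at h6
      have h7 : 0 < log (log (P : ℝ)) := log_pos (by linarith)
      have h8 : log (log (P : ℝ)) ≤ log L := log_le_log (by linarith) h5
      rw [div_lt_iff₀ (by positivity)] at h4
      have h9 : (2 * C + 1) * log L * (2 * log (log P)) ≤ (2 * C + 1) * log L * (2 * log L) :=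
        mul_le_mul_of_nonneg_left (by linarith) (by positivity)
      have h10 : (2 * C + 1) * log L * (2 * log L) = 2 * (2 * C + 1) * (log L) ^ 2 := by ring
      linarith
  -- the group bound for all prime factors
  have hgrp : ∀ q : ℕ, q.Prime → q ∣ n →
      (q : ℝ) ^ (1 - η) ≤ (2 : ℝ) ^ t * (Nat.gcd (q - 1) m : ℝ) := by
    intro q hq hqn
    have hqP := hP.2.2 q hq hqn
    have h1 : log q ≤ (log n) ^ η := by
      rw [← hLdef]
      exact (log_le_log (by exact_mod_cast hq.pos) (by exact_mod_cast hqP)).trans hlogP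
    have h2 := hD2 n m t q (by omega) hm1 hq hqn (hbig q hq hqn).2 h1 hbt
    have e : 1 - η / 2 - η / 2 = 1 - η := by ring
    rwa [e] at h2
  -- second bound for `P`
  have hlogP2 : log P < 2 * (2 * C + 1) * log L := by
    have h1 := hgrp P hP.1 hP.2.1
    have h2 : ((P : ℝ) ^ (1 - η)) ^ 2 < P * L ^ (2 * C + 1) :=
      (pow_le_pow_left₀ (by positivity) h1 2).trans_lt hup
    have h4 := log_lt_log (by positivity) h2
    rw [log_pow, log_rpow hP0, log_mul hP0.ne' (by positivity), log_rpow hLpos] at h4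
    push_cast at h4
    have h5 : 0 ≤ log (P : ℝ) := log_natCast_nonneg P
    nlinarith
  obtain ⟨X, hX⟩ : ∃ X : ℕ, X = ⌊L ^ (ε / 4)⌋₊ := ⟨_, rfl⟩
  have hL4 : 1 ≤ L ^ (ε / 4) := one_le_rpow hL1 (by positivity)
  have hPη : (P : ℝ) ^ η ≤ L ^ (ε / 4) := by
    have h1 : η * log P ≤ ε / 4 * log L := by
      have h2 : η * log P ≤ η * (2 * (2 * C + 1) * log L) :=
        mul_le_mul_of_nonneg_left hlogP2.le hη0.le
      have h4 : η * (2 * (2 * C + 1) * log L) = 2 * ((2 * C + 1) * η) * log L := by ring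
      rw [h4, hη1] at h2
      linarith
    rw [rpow_def_of_pos hP0, rpow_def_of_pos hLpos]
    apply exp_le_exp.mpr
    linarith
  have hcard : n.primeFactors.card ≤ m.divisors.card * (X + 1) := by
    apply card_le_pairs hm ht
    intro q hq hqn
    have hq0 : (0 : ℝ) < q := by exact_mod_cast hq.pos
    have h1 := hgrp q hq hqn
    have hqP : (q : ℝ) ≤ P := by exact_mod_cast hP.2.2 q hq hqn
    have h2 : (q : ℝ) ^ η ≤ L ^ (ε / 4) := (rpow_le_rpow hq0.le hqP hη0.le).trans hPη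
    -- `(q - 1) / (T d) ≤ q ^ η`
    have hdiv : 2 ^ t * Nat.gcd (q - 1) m ∣ q - 1 := by
      apply Nat.Coprime.mul_dvd_of_dvd_of_dvd _ (ht q hq hqn) (Nat.gcd_dvd_left _ _)
      apply Nat.Coprime.pow_left
      rw [Nat.coprime_two_left]
      exact Odd.of_dvd_nat hm (Nat.gcd_dvd_right _ _)
    obtain ⟨s, hs⟩ := hdiv
    have h4 : (s : ℝ) ≤ L ^ (ε / 4) := by
      have hW : 0 < (2 : ℝ) ^ t * (Nat.gcd (q - 1) m : ℝ) :=
        lt_of_lt_of_le (by positivity) h1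
      have e1 : (2 : ℝ) ^ t * (Nat.gcd (q - 1) m : ℝ) * s ≤ q := by
        have e2 : 2 ^ t * Nat.gcd (q - 1) m * s ≤ q := by rw [← hs]; omega
        exact_mod_cast e2
      have e3 : (q : ℝ) = (q : ℝ) ^ (1 - η) * (q : ℝ) ^ η := by
        rw [← rpow_add hq0, sub_add_cancel, rpow_one]
      have e4 : (q : ℝ) ≤ (2 : ℝ) ^ t * (Nat.gcd (q - 1) m : ℝ) * L ^ (ε / 4) := by
        calc (q : ℝ) = (q : ℝ) ^ (1 - η) * (q : ℝ) ^ η := e3
          _ ≤ _ := mul_le_mul h1 h2 (by positivity) hW.le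
      exact le_of_mul_le_mul_left (e1.trans e4) hW
    have h5 : s ≤ X := by rw [hX]; exact Nat.le_floor h4
    calc q - 1 = 2 ^ t * Nat.gcd (q - 1) m * s := hs
      _ ≤ _ := Nat.mul_le_mul_left _ h5
  -- the number of prime factors is small
  have hX1 : ((X : ℝ) + 1) ≤ 2 * L ^ (ε / 4) := by
    have : (X : ℝ) ≤ L ^ (ε / 4) := by rw [hX]; exact Nat.floor_le (by positivity)
    linarith
  have hK : (n.primeFactors.card : ℝ) ≤ 2 * L ^ (1 - 3 * ε / 4) := by
    have h1 : (n.primeFactors.card : ℝ) ≤ m.divisors.card * ((X : ℝ) + 1) := by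
      exact_mod_cast hcard
    have h2 : (m.divisors.card : ℝ) * ((X : ℝ) + 1) ≤ L ^ (1 - ε) * (2 * L ^ (ε / 4)) :=
      mul_le_mul hτ hX1 (by positivity) (by positivity)
    have h4 : L ^ (1 - 3 * ε / 4) = L ^ (1 - ε) * L ^ (ε / 4) := by
      rw [← rpow_add hLpos]
      congr 1
      ring
    rw [h4]
    linarith
  -- but `n` is at most `P ^ K`
  have hnP : n ≤ P ^ n.primeFactors.card := by
    calc n = ∏ p ∈ n.primeFactors, p := (Nat.prod_primeFactors_of_squarefree hsq).symm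
      _ ≤ P ^ n.primeFactors.card := prod_le_pow_card _ _ _ fun p hp =>
          hP.2.2 p (Nat.prime_of_mem_primeFactors hp) (Nat.dvd_of_mem_primeFactors hp)
  have hfin : L ≤ n.primeFactors.card * log P := by
    have h1 : (n : ℝ) ≤ (P : ℝ) ^ n.primeFactors.card := by exact_mod_cast hnP
    have h2 := log_le_log hn0 h1
    rwa [log_pow, ← hLdef] at h2
  have hlP0 : 0 ≤ log (P : ℝ) := log_natCast_nonneg P
  have h1 : (n.primeFactors.card : ℝ) * log P ≤
      2 * L ^ (1 - 3 * ε / 4) * (2 * (2 * C + 1) * log L) :=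
    mul_le_mul hK hlogP2.le hlP0 (by positivity)
  have h2 : 2 * L ^ (1 - 3 * ε / 4) * (2 * (2 * C + 1) * log L) =
      L ^ (1 - 3 * ε / 4) * (4 * (2 * C + 1) * log L) := by ring
  have h4 : L ^ (1 - 3 * ε / 4) * (4 * (2 * C + 1) * log L) <
      L ^ (1 - 3 * ε / 4) * L ^ (3 * ε / 4) := mul_lt_mul_of_pos_left c4 (by positivity)
  have h5 : L ^ (1 - 3 * ε / 4) * L ^ (3 * ε / 4) = L := by
    rw [← rpow_add hLpos, sub_add_cancel, rpow_one]
  linarith

/-- the exclusion for a small odd part -/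
lemma part1 (C : ℝ) (hC : 1 ≤ C) : ∃ N : ℕ, ∀ n : ℕ, N ≤ n → Bd 2 n → ∀ a m P : ℕ,
    n - 1 = 2 ^ a * m → Odd m → Lgst P n → (m : ℝ) ≤ (log n) ^ C → False := by
  obtain ⟨N1, hN1⟩ := pla C hC
  obtain ⟨N2, hN2⟩ := partg C (1 / 2) hC (by norm_num) (by norm_num)
  obtain ⟨C1, hC1, hC1'⟩ := H510R2.divisor_bound (1 / (4 * C)) (by positivity)
  have ev : ∀ᶠ L : ℝ in Filter.atTop, C1 ≤ L ^ (1 / 4 : ℝ) :=
    (tendsto_rpow_atTop (by norm_num : (0 : ℝ) < 1 / 4)).eventually (Filter.eventually_ge_atTop C1)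
  obtain ⟨L0, hL0⟩ := Filter.eventually_atTop.mp (ev.and (Filter.eventually_ge_atTop 1))
  refine ⟨max (max N1 N2) (max 3 ⌈exp L0⌉₊), ?_⟩
  intro n hn hb a m P hnm hm hP hmC
  have hnN1 : N1 ≤ n := (le_max_left _ _).trans ((le_max_left _ _).trans hn)
  have hnN2 : N2 ≤ n := (le_max_right _ _).trans ((le_max_left _ _).trans hn)
  have hn3 : 3 ≤ n := (le_max_left _ _).trans ((le_max_right _ _).trans hn)
  have hn0 : (0 : ℝ) < n := by exact_mod_cast (by omega : 0 < n)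
  have hLL0 : L0 ≤ log n := by
    rw [le_log_iff_exp_le hn0]
    exact Nat.ceil_le.mp ((le_max_right _ _).trans ((le_max_right _ _).trans hn))
  obtain ⟨c1, c2⟩ := hL0 _ hLL0
  have hLpos : 0 < log (n : ℝ) := by linarith
  have hm1 : 1 ≤ m := hm.pos
  have hm0 : (0 : ℝ) < m := by exact_mod_cast hm1
  have hPa := hN1 n hnN1 hb a m P hnm hm hP hmC
  have hdm : (Nat.gcd (P - 1) m : ℝ) ≤ m := by exact_mod_cast Nat.gcd_le_right _ hm1
  refine hN2 n hnN2 hb a m P hnm hm hP hPa (hdm.trans hmC) ?_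
  refine (hC1' m hm1).trans ?_
  have h1 : (m : ℝ) ^ (1 / (4 * C)) ≤ ((log (n : ℝ)) ^ C) ^ (1 / (4 * C)) :=
    rpow_le_rpow hm0.le hmC (by positivity)
  rw [← rpow_mul hLpos.le] at h1
  have h2 : C * (1 / (4 * C)) = 1 / 4 := by field_simp
  rw [h2] at h1
  have h3 : (log (n : ℝ)) ^ (1 - 1 / 2 : ℝ) = (log (n : ℝ)) ^ (1 / 4 : ℝ) * (log (n : ℝ)) ^ (1 / 4 : ℝ) := by
    rw [← rpow_add hLpos]; norm_num
  rw [h3]
  exact mul_le_mul c1 h1 (by positivity) (by positivity)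

end Pool.Agent.TH55.SO
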