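import Pool.Agent.W57.SW.Group
import Pool.Agent.TH55.SO.Cnt

set_option autoImplicit false

/-! The structure of a composite number without small witnesses. -/

namespace Pool.Agent.TH55.SO

open Finset Real Pool.Agent.W57.SW Pool.Agent.H379R2.W

/-- uniqueness of the odd part -/
lemma odd_part_unique : ∀ {a m j d : ℕ}, 2 ^ a * m = 2 ^ j * d → Odd m → Odd d → a = j ∧ m = d := by
  intro a
  induction a with
  | zero =>
    intro m j d h hm hd
    rcases Nat.eq_zero_or_pos j with h0 | h0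
    · subst h0
      simp only [pow_zero, one_mul] at h
      exact ⟨rfl, h⟩
    · exfalso
      obtain ⟨j', rfl⟩ : ∃ j', j = j' + 1 := ⟨j - 1, by omega⟩
      rw [pow_zero, one_mul] at h
      have : Even m := by rw [h, pow_succ]; exact ⟨2 ^ j' * d, by ring⟩
      exact (Nat.not_even_iff_odd.mpr hm) this
  | succ a ih =>
    intro m j d h hm hd
    rcases Nat.eq_zero_or_pos j with h0 | h0
    · exfalso
      subst h0
      rw [pow_zero, one_mul] at h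
      have : Even d := by rw [← h, pow_succ]; exact ⟨2 ^ a * m, by ring⟩
      exact (Nat.not_even_iff_odd.mpr hd) this
    · obtain ⟨j', rfl⟩ : ∃ j', j = j' + 1 := ⟨j - 1, by omega⟩
      have h1 : 2 ^ a * m = 2 ^ j' * d := by
        have : 2 * (2 ^ a * m) = 2 * (2 ^ j' * d) := by
          calc 2 * (2 ^ a * m) = 2 ^ (a + 1) * m := by ring
            _ = 2 ^ (j' + 1) * d := h
            _ = 2 * (2 ^ j' * d) := by ring
        omega
      obtain ⟨h2, h3⟩ := ih h1 hm hd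
      exact ⟨by omega, h3⟩

/-- the common power of two -/
lemma exists_t {B : ℝ} {n a m : ℕ} (hn2 : 2 ≤ n) (hB : 2 ≤ B)
    (hp : ∀ b : ℕ, 1 < b → (b : ℝ) ≤ B → Passes n b) (hnm : n - 1 = 2 ^ a * m) (hm : Odd m) :
    ∃ t : ℕ, (∀ p : ℕ, p.Prime → p ∣ n → 2 ^ t ∣ p - 1) ∧
      ∀ b : ℕ, 1 < b → (b : ℝ) ≤ B → (b : ZMod n) ^ (2 ^ t * m) = 1 := by
  have hodd : ∀ p : ℕ, p.Prime → p ∣ n → p ≠ 2 := by
    intro p hpp hpn h2
    subst h2
    exact not_dvd_of_passes hn2 Nat.prime_two hpn (hp 2 (by norm_num) (by exact_mod_cast hB)) dvd_rfl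
  have hne : n.primeFactors.Nonempty := Nat.nonempty_primeFactors.mpr hn2
  obtain ⟨p0, hp0, hmin⟩ := Finset.exists_min_image n.primeFactors v2 hne
  have hp0p : p0.Prime := Nat.prime_of_mem_primeFactors hp0
  have hp0n : p0 ∣ n := Nat.dvd_of_mem_primeFactors hp0
  refine ⟨v2 p0, ?_, ?_⟩
  · intro p hpp hpn
    have h1 : v2 p0 ≤ v2 p := hmin p (Nat.mem_primeFactors.mpr ⟨hpp, hpn, by omega⟩)
    obtain ⟨u, _, hu⟩ := v2_spec hpp.two_le
    rw [hu]
    exact (pow_dvd_pow 2 h1).trans (dvd_mul_right _ _)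
  · intro b hb1 hb2
    obtain ⟨j, d, h1, h2, h3⟩ := hp b hb1 hb2
    rw [hnm] at h1
    obtain ⟨rfl, rfl⟩ := odd_part_unique h1 hm h2
    rcases h3 with h3 | ⟨i, hi, h3⟩
    · rw [mul_comm, pow_mul, h3, one_pow]
    · have e1 := congrArg (ZMod.castHom hp0n (ZMod p0)) h3
      rw [map_pow, map_natCast, map_neg, map_one] at e1
      obtain ⟨f1, _, _⟩ := legendre_level hp0p (hodd p0 hp0p hp0n) h2 e1
      have e2 : 2 ^ v2 p0 * m = 2 ^ i * m * 2 * 2 ^ (v2 p0 - i - 1) := by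
        have : v2 p0 = i + 1 + (v2 p0 - i - 1) := by omega
        conv_lhs => rw [this, pow_add, pow_add]
        ring
      rw [e2, pow_mul, pow_mul, h3]
      norm_num

/-- a set of representatives on which a power is one -/
lemma card_le_liars {D e : ℕ} (hD : 1 ≤ D) (S : Finset ℕ) (hS : ∀ s ∈ S, 1 ≤ s ∧ s ≤ D)
    (hmem : ∀ s ∈ S, (s : ZMod D) ^ e = 1) : S.card ≤ liars (e + 1) D := by
  have : NeZero D := ⟨by omega⟩
  unfold liars
  rw [Nat.add_sub_cancel]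
  have hinj : Function.Injective (fun s : S => (⟨((s : ℕ) : ZMod D), hmem s s.2⟩ :
      {z : ZMod D // z ^ e = 1})) := by
    intro s s' hss
    have h1 : ((s : ℕ) : ZMod D) = ((s' : ℕ) : ZMod D) := congrArg Subtype.val hss
    rw [ZMod.natCast_eq_natCast_iff] at h1
    obtain ⟨a1, a2⟩ := hS s s.2
    obtain ⟨b1, b2⟩ := hS s' s'.2
    apply Subtype.ext
    have h2 : ((s : ℕ) - 1) ≡ ((s' : ℕ) - 1) [MOD D] := by
      have e1 : (s : ℕ) = ((s : ℕ) - 1) + 1 := by omega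
      have e2 : (s' : ℕ) = ((s' : ℕ) - 1) + 1 := by omega
      rw [e1, e2] at h1
      exact Nat.ModEq.add_right_cancel' 1 h1
    have h3 := Nat.ModEq.eq_of_lt_of_lt h2 (by omega) (by omega)
    omega
  have h1 := Nat.card_le_card_of_injective _ hinj
  rw [Nat.card_eq_fintype_card, Fintype.card_coe] at h1
  exact h1

/-- powers modulo a divisor -/
lemma pow_dvd_one {n D b e : ℕ} (hD : D ∣ n) (h : (b : ZMod n) ^ e = 1) : (b : ZMod D) ^ e = 1 := by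
  have h1 := congrArg (ZMod.castHom hD (ZMod D)) h
  rwa [map_pow, map_natCast, map_one] at h1

/-- the group bound for a prime factor: abstract form -/
lemma group_card {n m t q : ℕ} {B : ℝ} (hm : 1 ≤ m) (hq : q.Prime) (hqn : q ∣ n)
    (hb : ∀ b : ℕ, 1 < b → (b : ℝ) ≤ B → (b : ZMod n) ^ (2 ^ t * m) = 1)
    (S : Finset ℕ) (hS : ∀ s ∈ S, 1 ≤ s ∧ s ≤ q)
    (hSB : ∀ s ∈ S, ∀ p : ℕ, p.Prime → p ∣ s → (p : ℝ) ≤ B) :
    S.card ≤ 2 ^ t * Nat.gcd (q - 1) m := by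
  have h1 : S.card ≤ liars (2 ^ t * m + 1) q := by
    apply card_le_liars hq.one_lt.le S hS
    intro s hs
    refine pow_eq_one_of_primes s (hS s hs).1 fun p hp hps => ?_
    exact pow_dvd_one hqn (hb p hp.one_lt (hSB s hs p hp hps))
  have h2 : 2 ≤ 2 ^ t * m + 1 := by
    have : 1 ≤ 2 ^ t * m := Nat.one_le_iff_ne_zero.mpr (by positivity)
    omega
  have h3 := liars_prime h2 hq
  rw [Nat.add_sub_cancel] at h3
  have h4 : Nat.gcd (q - 1) (2 ^ t * m) ∣ Nat.gcd (q - 1) (2 ^ t) * Nat.gcd (q - 1) m :=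
    Nat.gcd_mul_right_dvd_mul_gcd _ _ _
  have hq1 : 0 < q - 1 := by have := hq.two_le; omega
  have h5 : Nat.gcd (q - 1) (2 ^ t * m) ≤ Nat.gcd (q - 1) (2 ^ t) * Nat.gcd (q - 1) m :=
    Nat.le_of_dvd (Nat.mul_pos (Nat.gcd_pos_of_pos_left _ hq1) (Nat.gcd_pos_of_pos_left _ hq1)) h4
  have h6 : Nat.gcd (q - 1) (2 ^ t) ≤ 2 ^ t := Nat.gcd_le_right _ (by positivity)
  exact h1.trans (h3.trans (h5.trans (Nat.mul_le_mul_right _ h6)))

/-- first group bound -/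
lemma group1 : ∃ D0 : ℕ, ∀ n m t q : ℕ, 2 ≤ n → 1 ≤ m → q.Prime → q ∣ n → D0 ≤ q →
    (∀ b : ℕ, 1 < b → (b : ℝ) ≤ 2 * (log n) ^ 2 → (b : ZMod n) ^ (2 ^ t * m) = 1) →
    (q : ℝ) * exp (log q / (2 * log (log q))) ≤ ((2 : ℝ) ^ t * (Nat.gcd (q - 1) m : ℝ)) ^ 2 := by
  obtain ⟨D0, hD0⟩ := smooth_count2
  refine ⟨D0, fun n m t q hn hm hq hqn hD hb => ?_⟩
  obtain ⟨S, hS1, hS2⟩ := hD0 q hD
  refine hS2.trans ?_
  have hqn' : q ≤ n := Nat.le_of_dvd (by omega) hqn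
  have hlog : log q ≤ log n :=
    log_le_log (by exact_mod_cast hq.pos) (by exact_mod_cast hqn')
  have hlog0 : 0 ≤ log (q : ℝ) := log_natCast_nonneg q
  have h1 := group_card hm hq hqn hb S (fun s hs => ⟨(hS1 s hs).1, (hS1 s hs).2.1⟩)
    (fun s hs p hp hps => ((hS1 s hs).2.2 p hp hps).trans (by
      have := pow_le_pow_left₀ hlog0 hlog 2
      linarith))
  have h2 : (S.card : ℝ) ≤ (2 : ℝ) ^ t * (Nat.gcd (q - 1) m : ℝ) := by exact_mod_cast h1
  exact pow_le_pow_left₀ (by positivity) h2 2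

/-- second group bound -/
lemma group2 (A θ δ : ℝ) (hθ : 0 < θ) (hA : θ < A) (hδ : 0 < δ) : ∃ D0 : ℕ, ∀ n m t q : ℕ, 2 ≤ n →
    1 ≤ m → q.Prime → q ∣ n → D0 ≤ q → log q ≤ (log n) ^ θ →
    (∀ b : ℕ, 1 < b → (b : ℝ) ≤ 2 * (log n) ^ A → (b : ZMod n) ^ (2 ^ t * m) = 1) →
    (q : ℝ) ^ (1 - θ / A - δ) ≤ (2 : ℝ) ^ t * (Nat.gcd (q - 1) m : ℝ) := by
  obtain ⟨D0, hD0⟩ := smooth_many (A / θ) δ (by rwa [one_lt_div hθ]) hδ
  refine ⟨D0, fun n m t q hn hm hq hqn hD hqθ hb => ?_⟩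
  obtain ⟨S, hS1, hS2⟩ := hD0 q hD
  have e : 1 / (A / θ) = θ / A := one_div_div A θ
  rw [e] at hS2
  refine hS2.trans ?_
  have hlog0 : 0 ≤ log (q : ℝ) := log_natCast_nonneg q
  have hlogn0 : 0 ≤ log (n : ℝ) := log_natCast_nonneg n
  have hA0 : 0 < A := hθ.trans hA
  have h0 : (log q) ^ (A / θ) ≤ 2 * (log n) ^ A := by
    have h1 : (log (q : ℝ)) ^ (A / θ) ≤ ((log (n : ℝ)) ^ θ) ^ (A / θ) :=
      rpow_le_rpow hlog0 hqθ (by positivity)
    rw [← rpow_mul hlogn0, mul_div_cancel₀ _ hθ.ne'] at h1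
    have h2 : 0 ≤ (log (n : ℝ)) ^ A := rpow_nonneg hlogn0 _
    linarith
  have h1 := group_card hm hq hqn hb S (fun s hs => ⟨(hS1 s hs).1, (hS1 s hs).2.1⟩)
    (fun s hs p hp hps => ((hS1 s hs).2.2.2.2 p hp hps).trans h0)
  exact_mod_cast h1

/-- the congruence modulo the square of the power of two -/
lemma prod_congr (T : ℤ) (s : Finset ℕ) (hs : ∀ p ∈ s, T ∣ (p : ℤ) - 1) :
    T ∣ (∏ p ∈ s, (p : ℤ)) - 1 ∧
      T ^ 2 ∣ (∏ p ∈ s, (p : ℤ)) - 1 - ∑ p ∈ s, ((p : ℤ) - 1) := by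
  induction s using Finset.induction_on with
  | empty => simp
  | insert q s hq ih =>
    obtain ⟨h1, h2⟩ := ih fun p hp => hs p (mem_insert_of_mem hp)
    obtain ⟨c, hc⟩ := hs q (mem_insert_self q s)
    obtain ⟨e, he⟩ := h1
    obtain ⟨f, hf⟩ := h2
    rw [prod_insert hq, sum_insert hq]
    have hP : (∏ p ∈ s, (p : ℤ)) = 1 + T * e := by linarith
    have hQ : (q : ℤ) = 1 + T * c := by linarith
    constructor
    · rw [hP, hQ]
      exact ⟨c + e + T * c * e, by ring⟩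
    · have hS : ∑ p ∈ s, ((p : ℤ) - 1) = T * e - T ^ 2 * f := by
        have : (∏ p ∈ s, (p : ℤ)) - 1 = T * e := by linarith
        linarith
      rw [hS, hP, hQ]
      exact ⟨c * e + f, by ring⟩

/-- the sum of the numbers `p - 1` is large -/
lemma sigma_large {n a m t : ℕ} (hn2 : 2 ≤ n) (hsq : Squarefree n) (hnm : n - 1 = 2 ^ a * m)
    (ht : ∀ p : ℕ, p.Prime → p ∣ n → 2 ^ t ∣ p - 1) :
    2 ^ a ≤ ∑ p ∈ n.primeFactors, (p - 1) ∨ (2 ^ t) ^ 2 ≤ ∑ p ∈ n.primeFactors, (p - 1) := by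
  obtain ⟨σ, hσ⟩ : ∃ σ : ℕ, σ = ∑ p ∈ n.primeFactors, (p - 1) := ⟨_, rfl⟩
  rw [← hσ]
  have hσ0 : 0 < σ := by
    rw [hσ]
    apply Finset.sum_pos
    · intro p hp
      have := (Nat.prime_of_mem_primeFactors hp).two_le
      omega
    · exact Nat.nonempty_primeFactors.mpr hn2
  have hσZ : (σ : ℤ) = ∑ p ∈ n.primeFactors, ((p : ℤ) - 1) := by
    rw [hσ]
    push_cast
    apply sum_congr rfl
    intro p hp
    have := (Nat.prime_of_mem_primeFactors hp).one_lt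
    rw [Nat.cast_sub this.le, Nat.cast_one]
  obtain ⟨_, h2⟩ := prod_congr ((2 : ℤ) ^ t) n.primeFactors (fun p hp => by
    have h1 := ht p (Nat.prime_of_mem_primeFactors hp) (Nat.dvd_of_mem_primeFactors hp)
    have h3 : 1 ≤ p := (Nat.prime_of_mem_primeFactors hp).one_lt.le
    have h4 : ((2 ^ t : ℕ) : ℤ) ∣ ((p - 1 : ℕ) : ℤ) := Int.natCast_dvd_natCast.mpr h1
    rw [Nat.cast_sub h3] at h4
    push_cast at h4
    exact h4)
  have hprod : (∏ p ∈ n.primeFactors, (p : ℤ)) = n := by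
    rw [← Nat.cast_prod, Nat.prod_primeFactors_of_squarefree hsq]
  rw [hprod, ← hσZ] at h2
  have hnZ : (n : ℤ) - 1 = 2 ^ a * m := by
    have : ((n - 1 : ℕ) : ℤ) = ((2 ^ a * m : ℕ) : ℤ) := by rw [hnm]
    rw [Nat.cast_sub (by omega)] at this
    push_cast at this
    exact this
  rw [hnZ] at h2
  rcases le_total a (2 * t) with h | h
  · left
    have h3 : (2 : ℤ) ^ a ∣ σ := by
      have h4 : (2 : ℤ) ^ a ∣ (2 ^ t) ^ 2 := by
        rw [← pow_mul]; exact pow_dvd_pow 2 (by omega)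
      have h5 := h4.trans h2
      have h6 : (2 : ℤ) ^ a ∣ 2 ^ a * m := dvd_mul_right _ _
      exact (dvd_sub_right h6).mp h5
    have h7 : 2 ^ a ∣ σ := by exact_mod_cast h3
    exact Nat.le_of_dvd hσ0 h7
  · right
    have h3 : ((2 : ℤ) ^ t) ^ 2 ∣ σ := by
      have h6 : ((2 : ℤ) ^ t) ^ 2 ∣ 2 ^ a * m := by
        rw [← pow_mul]
        exact (pow_dvd_pow 2 (by omega)).trans (dvd_mul_right _ _)
      exact (dvd_sub_right h6).mp h2
    have h7 : (2 ^ t) ^ 2 ∣ σ := by exact_mod_cast h3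
    exact Nat.le_of_dvd hσ0 h7

end Pool.Agent.TH55.SO
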